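import Pool.Agent.N424.EK.Crt0

/-!
# EK/10: critical points (helper424)
-/

set_option autoImplicit false

namespace Pool.Agent.N424.EK

open Finset Filter Topology Metric
open Pool.Agent.W711.HT hiding XX
open Pool.Agent.N561
open Pool.Agent.N561.EK
open Pool.Agent.TH554.VHC
open scoped Real

/-- a lower bound of `bet` -/
theorem bet_low : 2 - π / 2 ≤ bet := by
  have hpi := Real.pi_pos
  have h1 : ∫ t in (0:ℝ)..(π / 4), Real.log (2 * Real.sin t) ≤
      ∫ t in (0:ℝ)..(π / 4), (Real.log 2 + Real.log t) := by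
    apply intervalIntegral.integral_mono_on_of_le_Ioo (by positivity)
    · have : IntervalIntegrable (fun t => Real.log 2 + Real.log (Real.sin t))
          MeasureTheory.volume 0 (π / 4) :=
        (intervalIntegrable_const).add intervalIntegrable_log_sin
      refine this.congr_uIoo ?_
      intro t ht
      rw [Set.uIoo_of_le (by positivity)] at ht
      have hs : 0 < Real.sin t := Real.sin_pos_of_pos_of_lt_pi ht.1 (by linarith [ht.2])
      show Real.log 2 + Real.log (Real.sin t) = Real.log (2 * Real.sin t)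
      rw [Real.log_mul (by norm_num) hs.ne']
    · exact (intervalIntegrable_const).add intervalIntegral.intervalIntegrable_log'
    · intro t ht
      have hs : 0 < Real.sin t := Real.sin_pos_of_pos_of_lt_pi ht.1 (by linarith [ht.2])
      rw [Real.log_mul (by norm_num) hs.ne']
      have := Real.log_le_log hs (Real.sin_le ht.1.le)
      linarith
  have h2 : ∫ t in (0:ℝ)..(π / 4), (Real.log 2 + Real.log t) =
      π / 4 * Real.log 2 + (π / 4 * Real.log (π / 4) - π / 4) := by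
    rw [intervalIntegral.integral_add intervalIntegrable_const
      intervalIntegral.intervalIntegrable_log', integral_log]
    simp
  have h3 : π / 4 * Real.log 2 + π / 4 * Real.log (π / 4) = π / 4 * Real.log (π / 2) := by
    rw [← mul_add, ← Real.log_mul (by norm_num) (by positivity)]
    congr 2
    ring
  have h4 : Real.log (π / 2) ≤ π / 2 - 1 := Real.log_le_sub_one_of_pos (by positivity)
  unfold bet
  have h5 : (2 - π / 2) * (π / 4) ≤ -∫ t in (0:ℝ)..(π / 4), Real.log (2 * Real.sin t) := by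
    have := mul_le_mul_of_nonneg_left h4 (by positivity : 0 ≤ π / 4)
    linarith
  have h6 := mul_le_mul_of_nonneg_left h5 (by positivity : 0 ≤ 4 / π)
  have h7 : 4 / π * ((2 - π / 2) * (π / 4)) = 2 - π / 2 := by
    field_simp
  rw [h7] at h6
  linarith

/-! ### The potential as a function of two variables -/

/-- the potential as a function of two variables -/
noncomputable def SG (p : ℂ × ℂ) : ℂ := sg p.1 p.2

/-- the derivative in the first variable -/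
noncomputable def g1 (p : ℂ × ℂ) : ℂ := fderiv ℂ SG p (1, 0)

/-- the derivative in the second variable -/
noncomputable def g2 (p : ℂ × ℂ) : ℂ := fderiv ℂ SG p (0, 1)

theorem W_open : IsOpen (DD ×ˢ DD : Set (ℂ × ℂ)) := DD_open.prod DD_open

theorem SG_d (hP : POT) : DifferentiableOn ℂ SG (DD ×ˢ DD) := hP.san

theorem g1_d (hP : POT) : DifferentiableOn ℂ g1 (DD ×ˢ DD) :=
  Pool.Agent.Helper540.differentiableOn_fderiv_apply W_open (SG_d hP) _

theorem g2_d (hP : POT) : DifferentiableOn ℂ g2 (DD ×ˢ DD) :=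
  Pool.Agent.Helper540.differentiableOn_fderiv_apply W_open (SG_d hP) _

theorem at_W {H : ℂ × ℂ → ℂ} (hH : DifferentiableOn ℂ H (DD ×ˢ DD)) {ψ φ : ℂ}
    (hψ : ψ ∈ DD) (hφ : φ ∈ DD) : DifferentiableAt ℂ H (ψ, φ) :=
  hH.differentiableAt (W_open.mem_nhds ⟨hψ, hφ⟩)

theorem g1_eq (hP : POT) {ψ φ : ℂ} (hψ : ψ ∈ DD) (hφ : φ ∈ DD) : g1 (ψ, φ) = s1 ψ φ :=
  (deriv_fst (at_W (SG_d hP) hψ hφ)).deriv.symm

theorem g2_eq (hP : POT) {ψ φ : ℂ} (hψ : ψ ∈ DD) (hφ : φ ∈ DD) : g2 (ψ, φ) = s2 ψ φ :=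
  (deriv_snd (at_W (SG_d hP) hψ hφ)).deriv.symm

theorem s12 (hP : POT) (ψ φ : ℂ) : s1 ψ φ = s2 φ ψ := by
  unfold s1 s2
  have : (fun w => sg w φ) = fun w => sg φ w := funext fun w => hP.sym w φ
  rw [this]

theorem ev2 (hP : POT) (ψ φ : ℂ) : sg ψ (-φ) = sg ψ φ := by
  rw [hP.sym, hP.ev, hP.sym]

theorem rr_sym (ψ φ : ℂ) : rr ψ φ = rr φ ψ := by
  unfold rr
  rw [mul_comm]

theorem g11 (hP : POT) {ψ φ : ℂ} (hψ : ψ ∈ DD) (hφ : φ ∈ DD) :
    fderiv ℂ g1 (ψ, φ) (1, 0) =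
      -(1 / (2 * π)) * (Complex.cos (φ / 2) / (Complex.cos (ψ / 2) * rr ψ φ)) := by
  have h1 := deriv_fst (at_W (g1_d hP) hψ hφ)
  refine h1.unique ((hP.d11 ψ hψ φ hφ).congr_of_eventuallyEq ?_)
  filter_upwards [DD_open.mem_nhds hψ] with w hw
  exact g1_eq hP hw hφ

theorem g12 (hP : POT) {ψ φ : ℂ} (hψ : ψ ∈ DD) (hφ : φ ∈ DD) :
    fderiv ℂ g1 (ψ, φ) (0, 1) =
      1 / (2 * π) * (Complex.sin (ψ / 2) * Complex.sin (φ / 2) / rr ψ φ) := by
  have h1 := deriv_snd (at_W (g1_d hP) hψ hφ)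
  refine h1.unique ((hP.d12 ψ hψ φ hφ).congr_of_eventuallyEq ?_)
  filter_upwards [DD_open.mem_nhds hφ] with w hw
  exact g1_eq hP hψ hw

theorem g21 (hP : POT) {ψ φ : ℂ} (hψ : ψ ∈ DD) (hφ : φ ∈ DD) :
    fderiv ℂ g2 (ψ, φ) (1, 0) =
      1 / (2 * π) * (Complex.sin (ψ / 2) * Complex.sin (φ / 2) / rr ψ φ) := by
  have h1 := deriv_fst (at_W (g2_d hP) hψ hφ)
  refine h1.unique ((hP.d21 ψ hψ φ hφ).congr_of_eventuallyEq ?_)
  filter_upwards [DD_open.mem_nhds hψ] with w hw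
  exact g2_eq hP hw hφ

theorem g22 (hP : POT) {ψ φ : ℂ} (hψ : ψ ∈ DD) (hφ : φ ∈ DD) :
    fderiv ℂ g2 (ψ, φ) (0, 1) =
      -(1 / (2 * π)) * (Complex.cos (ψ / 2) / (Complex.cos (φ / 2) * rr ψ φ)) := by
  have h1 := deriv_snd (at_W (g2_d hP) hψ hφ)
  refine h1.unique ((hP.d22 ψ hψ φ hφ).congr_of_eventuallyEq ?_)
  filter_upwards [DD_open.mem_nhds hφ] with w hw
  exact g2_eq hP hψ hw

/-! ### The functions in the equations -/

/-- the function `h` of a child -/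
noncomputable def hc (t : ℕ) (F : ℂ → ℂ) (ψ φ : ℂ) : ℂ :=
  deriv F φ + s1 φ ψ + (t + 1 : ℕ) * φ / (2 * π)

theorem two_pi_norm : ‖(2 * π : ℂ)‖ = 2 * π := by
  rw [norm_mul, Complex.norm_real, Real.norm_of_nonneg Real.pi_pos.le]
  norm_num

theorem HB_child (hP : POT) (hH : HES) (hM : MUL) {t : ℕ} {F : ℂ → ℂ} (hF : AN t F) {ψ : ℂ}
    (hψ : ψ ∈ DD) : HB (t + 1) (hc t F ψ) := by
  have hpi := Real.pi_pos
  have hder : ∀ φ ∈ D1, HasDerivAt (hc t F ψ) (deriv (deriv F) φ +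
      -(1 / (2 * π)) * (Complex.cos (ψ / 2) / (Complex.cos (φ / 2) * rr φ ψ)) +
      (t + 1 : ℕ) / (2 * π)) φ := by
    intro φ hφ
    have hφD := D1_DD hφ
    have e1 : HasDerivAt (deriv F) (deriv (deriv F) φ) φ :=
      ((hF.Fan.deriv DD_open).differentiableAt (DD_open.mem_nhds hφD)).hasDerivAt
    have e2 := hP.d11 φ hφD ψ hψ
    have e3 : HasDerivAt (fun φ : ℂ => ((t + 1 : ℕ) : ℂ) * φ / (2 * π))
        ((t + 1 : ℕ) / (2 * π)) φ := by
      have := ((hasDerivAt_id φ).const_mul ((t + 1 : ℕ) : ℂ)).div_const (2 * (π : ℂ))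
      simpa using this
    exact (e1.add e2).add e3
  refine ⟨?_, fun φ hφ => (hder φ hφ).differentiableAt, ?_⟩
  · intro φ hφ
    have e1 := hF.mul φ hφ
    have e2 := hM.mD φ (D1_DD hφ) ψ hψ
    have e3 : hc t F ψ φ = (deriv F φ + t * φ / (2 * π)) + (s1 φ ψ + φ / (2 * π)) := by
      unfold hc
      push_cast
      ring
    rw [e3]
    refine (norm_add_le _ _).trans ((add_le_add e1 e2).trans (le_of_eq ?_))
    push_cast
    ring
  · intro φ hφ
    rw [(hder φ hφ).deriv]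
    have e1 := hF.sec φ hφ
    have e2 := hH.sec2 φ hφ ψ hψ
    have e3 : deriv (deriv F) φ +
        -(1 / (2 * π)) * (Complex.cos (ψ / 2) / (Complex.cos (φ / 2) * rr φ ψ)) +
        ((t + 1 : ℕ) : ℂ) / (2 * π) = (deriv (deriv F) φ + t / (2 * π)) +
        -((Complex.cos (ψ / 2) / (Complex.cos (φ / 2) * rr φ ψ) - 1) / (2 * π)) := by
      push_cast
      ring
    rw [e3]
    refine (norm_add_le _ _).trans ?_
    rw [norm_neg, norm_div, two_pi_norm]
    have e4 := div_le_div_of_nonneg_right e2 (by positivity : 0 ≤ 2 * π)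
    refine (add_le_add e1 e4).trans (le_of_eq ?_)
    push_cast
    ring

theorem Eq_child (t : ℕ) (a : ℤ) (F : ℂ → ℂ) (ψ z : ℂ) : Eq (t + 1) a (hc t F ψ) z =
    Complex.I * a * z / (2 * π) + Complex.I + deriv F z + s1 z ψ := by
  unfold Eq hc
  ring

/-- the function `h` of the root -/
noncomputable def hr (t : ℕ) (F : ℂ → ℂ) (φ : ℂ) : ℂ := deriv F φ + t * φ / (2 * π)

theorem HB_root {t : ℕ} {F : ℂ → ℂ} (hF : AN t F) : HB t (hr t F) := by
  have hpi := Real.pi_pos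
  have hder : ∀ φ ∈ D1, HasDerivAt (hr t F) (deriv (deriv F) φ + t / (2 * π)) φ := by
    intro φ hφ
    have hφD := D1_DD hφ
    have e1 : HasDerivAt (deriv F) (deriv (deriv F) φ) φ :=
      ((hF.Fan.deriv DD_open).differentiableAt (DD_open.mem_nhds hφD)).hasDerivAt
    have e3 : HasDerivAt (fun φ : ℂ => (t : ℂ) * φ / (2 * π)) (t / (2 * π)) φ := by
      have := ((hasDerivAt_id φ).const_mul (t : ℂ)).div_const (2 * (π : ℂ))
      simpa using this
    exact e1.add e3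
  refine ⟨?_, fun φ hφ => (hder φ hφ).differentiableAt, ?_⟩
  · intro φ hφ
    refine (hF.mul φ hφ).trans ?_
    apply div_le_div_of_nonneg_right _ (by positivity)
    apply mul_le_mul_of_nonneg_right _ (norm_nonneg _)
    linarith
  · intro φ hφ
    rw [(hder φ hφ).deriv]
    refine (hF.sec φ hφ).trans ?_
    apply div_le_div_of_nonneg_right _ (by positivity)
    linarith

theorem D1_D0 {z : ℂ} (hz : z ∈ D1) (h : 0 < z.im) : z ∈ D0 :=
  ⟨hz.1, (le_abs_self _).trans hz.2, Or.inr h⟩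

theorem D0_D1 {z : ℂ} (hz : z ∈ D0) : z ∈ D1 := by
  refine ⟨hz.1, ?_⟩
  rw [abs_le]
  refine ⟨?_, hz.2.1⟩
  rcases hz.2.2 with h | h
  · rw [h]; norm_num
  · linarith

/-- the second statement -/
theorem crt_root (t : ℕ) (F : ℂ → ℂ) (a : ℤ) (ht : 1 ≤ t) (hF : AN t F) (hL : LG t a) :
    ∃ z : ℂ, z ∈ D0 ∧ 0 < z.im ∧ Complex.I * a * z / (2 * π) + Complex.I + deriv F z = 0 := by
  obtain ⟨z, hz, h0⟩ := sol_ex hL (HB_root hF)
  have h1 := sol_prop ht (HB_root hF) hz h0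
  refine ⟨z, D1_D0 hz h1.1, h1.1, ?_⟩
  rw [← h0]
  unfold Eq hr
  ring

/-! ### Taylor bounds -/

/-- a function with small derivative -/
theorem small_der {K K' : ℂ → ℂ} {c : ℝ} (hc : 0 ≤ c) (h : ∀ φ ∈ D1, HasDerivAt K (K' φ) φ)
    (hb : ∀ φ ∈ D1, ‖K' φ‖ ≤ c * ‖φ‖) {z : ℂ} (hz : z ∈ D1) : ‖K z - K 0‖ ≤ c * ‖z‖ ^ 2 := by
  have hconv : Convex ℝ (D1 ∩ closedBall 0 ‖z‖) := D1_convex.inter (convex_closedBall _ _)
  have h1 := hconv.norm_image_sub_le_of_norm_hasDerivWithin_le (f := K) (f' := K')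
    (C := c * ‖z‖) (x := 0) (y := z)
    (fun w hw => (h w hw.1).hasDerivWithinAt) (fun w hw => by
      refine (hb w hw.1).trans ?_
      have := hw.2
      rw [mem_closedBall, dist_zero_right] at this
      exact mul_le_mul_of_nonneg_left this hc)
    ⟨zero_D1, by rw [mem_closedBall, dist_self]; exact norm_nonneg _⟩
    ⟨hz, by rw [mem_closedBall, dist_zero_right]⟩
  rw [sub_zero] at h1
  linarith

theorem F_taylor {t : ℕ} {F : ℂ → ℂ} (hF : AN t F) {z : ℂ} (hz : z ∈ D1) :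
    ‖F z + t * z ^ 2 / (4 * π) - F 0‖ ≤ t / 20 / (2 * π) * ‖z‖ ^ 2 := by
  have hpi := Real.pi_pos
  have h1 := small_der (K := fun w => F w + t * w ^ 2 / (4 * π))
    (K' := fun w => deriv F w + t * w / (2 * π)) (c := (t : ℝ) / 20 / (2 * π)) (by positivity)
    (fun φ hφ => by
      have e1 : HasDerivAt F (deriv F φ) φ :=
        (hF.Fan.differentiableAt (DD_open.mem_nhds (D1_DD hφ))).hasDerivAt
      have e2 : HasDerivAt (fun w : ℂ => (t : ℂ) * w ^ 2 / (4 * π)) (t * φ / (2 * π)) φ := by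
        have := (((hasDerivAt_id φ).pow 2).const_mul (t : ℂ)).div_const (4 * (π : ℂ))
        refine this.congr_deriv ?_
        simp
        ring
      exact e1.add e2)
    (fun φ hφ => by
      refine (hF.mul φ hφ).trans (le_of_eq ?_)
      ring) hz
  simpa using h1

theorem sg_taylor (hP : POT) (hM : MUL) {z : ℂ} (hz : z ∈ D1) :
    ‖sg z 0 + z ^ 2 / (4 * π) - sg 0 0‖ ≤ 1 / 20 / (2 * π) * ‖z‖ ^ 2 := by
  have hpi := Real.pi_pos
  have h1 := small_der (K := fun w => sg w 0 + w ^ 2 / (4 * π))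
    (K' := fun w => s1 w 0 + w / (2 * π)) (c := 1 / 20 / (2 * π)) (by positivity)
    (fun φ hφ => by
      have e1 : HasDerivAt (fun w => sg w 0) (s1 φ 0) φ :=
        (hP.d1 φ (D1_DD hφ) 0 zero_DD).differentiableAt.hasDerivAt
      have e2 : HasDerivAt (fun w : ℂ => w ^ 2 / (4 * π)) (φ / (2 * π)) φ := by
        have := (((hasDerivAt_id φ).pow 2)).div_const (4 * (π : ℂ))
        refine this.congr_deriv ?_
        simp
        ring
      exact e1.add e2)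
    (fun φ hφ => by
      refine (hM.m1 φ hφ 0 zero_D1).trans (le_of_eq ?_)
      ring) hz
  simpa using h1

/-! ### A child -/

theorem crt_child (hP : POT) (hH : HES) (hM : MUL) (t : ℕ) (F : ℂ → ℂ) (a : ℤ) (hF : AN t F)
    (hL : LG (t + 1) a) : ∃ F' zs : ℂ → ℂ, CRD t a F F' zs ∧ AN 1 F' := by
  have hpi := Real.pi_pos
  have hpi0 : (π : ℂ) ≠ 0 := Complex.ofReal_ne_zero.2 hpi.ne'
  have hHB : ∀ ψ ∈ DD, HB (t + 1) (hc t F ψ) := fun ψ hψ => HB_child hP hH hM hF hψ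
  have hex : ∀ ψ : ℂ, ψ ∈ DD → ∃ z : ℂ, z ∈ D1 ∧ Eq (t + 1) a (hc t F ψ) z = 0 :=
    fun ψ hψ => sol_ex hL (hHB ψ hψ)
  choose! zs hz1 hz0 using hex
  have hprop : ∀ ψ ∈ DD, 0 < (zs ψ).im ∧ ‖zs ψ‖ * (t + 1 : ℕ) ≤ 8 / 3 * π := fun ψ hψ =>
    sol_prop (by omega) (hHB ψ hψ) (hz1 ψ hψ) (hz0 ψ hψ)
  have hzD : ∀ ψ ∈ DD, zs ψ ∈ DD := fun ψ hψ => D1_DD (hz1 ψ hψ)
  have hcrit : ∀ ψ ∈ DD, Complex.I * a * zs ψ / (2 * π) + Complex.I + deriv F (zs ψ) +
      s1 (zs ψ) ψ = 0 := by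
    intro ψ hψ
    rw [← Eq_child]
    exact hz0 ψ hψ
  have huniq : ∀ ψ ∈ DD, ∀ z ∈ D1, Eq (t + 1) a (hc t F ψ) z = 0 → z = zs ψ := by
    intro ψ hψ z hz h0
    have h1 := colip hL (hHB ψ hψ) hz (hz1 ψ hψ)
    rw [h0, hz0 ψ hψ, sub_zero, norm_zero] at h1
    exact sub_eq_zero.1 (norm_le_zero_iff.1 h1)
  have hlip : ∀ ψ ∈ DD, ∀ w ∈ DD, ‖zs w - zs ψ‖ ≤ ‖s2 w (zs ψ) - s2 ψ (zs ψ)‖ := by
    intro ψ hψ w hw
    have h1 := colip hL (hHB w hw) (hz1 ψ hψ) (hz1 w hw)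
    rw [hz0 w hw, sub_zero, Eq_child] at h1
    have h2 : Complex.I * a * zs ψ / (2 * π) + Complex.I + deriv F (zs ψ) + s1 (zs ψ) w =
        s2 w (zs ψ) - s2 ψ (zs ψ) := by
      rw [← s12 hP, ← s12 hP]
      linear_combination hcrit ψ hψ
    rw [h2, norm_sub_rev] at h1
    exact h1
  -- the equation as a function of two variables
  obtain ⟨H, hHdef⟩ : ∃ H : ℂ × ℂ → ℂ, H = fun p => Complex.I * a * p.2 / (2 * π) + Complex.I +
    deriv F p.2 + g2 p := ⟨_, rfl⟩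
  have hHd : ∀ ψ ∈ DD, DifferentiableAt ℂ H (ψ, zs ψ) := by
    intro ψ hψ
    have hzψ := hzD ψ hψ
    have e1 : DifferentiableAt ℂ (fun p : ℂ × ℂ => deriv F p.2) (ψ, zs ψ) :=
      DifferentiableAt.comp (g := deriv F) (ψ, zs ψ)
        ((hF.Fan.deriv DD_open).differentiableAt (DD_open.mem_nhds hzψ)) differentiableAt_snd
    have e2 := at_W (g2_d hP) hψ hzψ
    have e3 : DifferentiableAt ℂ (fun p : ℂ × ℂ => Complex.I * a * p.2 / (2 * π) + Complex.I)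
        (ψ, zs ψ) := by fun_prop
    rw [hHdef]
    exact (e3.add e1).add e2
  have hH0 : ∀ ψ ∈ DD, H (ψ, zs ψ) = 0 := by
    intro ψ hψ
    rw [hHdef]
    show Complex.I * a * zs ψ / (2 * π) + Complex.I + deriv F (zs ψ) + g2 (ψ, zs ψ) = 0
    rw [g2_eq hP hψ (hzD ψ hψ), ← s12 hP]
    exact hcrit ψ hψ
  -- its derivatives
  have hH1 : ∀ ψ ∈ DD, fderiv ℂ H (ψ, zs ψ) (1, 0) =
      1 / (2 * π) * (Complex.sin (ψ / 2) * Complex.sin (zs ψ / 2) / rr ψ (zs ψ)) := by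
    intro ψ hψ
    rw [← g21 hP hψ (hzD ψ hψ)]
    have h1 := deriv_fst (hHd ψ hψ)
    have h2 := (deriv_fst (at_W (g2_d hP) hψ (hzD ψ hψ))).const_add
      (Complex.I * a * zs ψ / (2 * π) + Complex.I + deriv F (zs ψ))
    rw [hHdef] at h1
    rw [hHdef]
    exact h1.unique h2
  have hH2 : ∀ ψ ∈ DD, fderiv ℂ H (ψ, zs ψ) (0, 1) = Complex.I * a / (2 * π) +
      deriv (deriv F) (zs ψ) + -(1 / (2 * π)) * (Complex.cos (ψ / 2) /
        (Complex.cos (zs ψ / 2) * rr ψ (zs ψ))) := by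
    intro ψ hψ
    rw [← g22 hP hψ (hzD ψ hψ)]
    have h1 := deriv_snd (hHd ψ hψ)
    have e1 : HasDerivAt (deriv F) (deriv (deriv F) (zs ψ)) (zs ψ) :=
      ((hF.Fan.deriv DD_open).differentiableAt (DD_open.mem_nhds (hzD ψ hψ))).hasDerivAt
    have e2 : HasDerivAt (fun w : ℂ => Complex.I * a * w / (2 * π) + Complex.I)
        (Complex.I * a / (2 * π)) (zs ψ) := by
      have := (((hasDerivAt_id (zs ψ)).const_mul (Complex.I * a)).div_const
        (2 * (π : ℂ))).add_const Complex.I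
      simpa using this
    have h2 := (e2.add e1).add (deriv_snd (at_W (g2_d hP) hψ (hzD ψ hψ)))
    rw [hHdef] at h1
    rw [hHdef]
    exact h1.unique h2
  -- the real part of the second derivative
  have hG : ∀ ψ ∈ DD, (fderiv ℂ H (ψ, zs ψ) (0, 1)).re ≤ -(1 / (2 * π)) *
      (Complex.cos (ψ / 2) / (Complex.cos (zs ψ / 2) * rr ψ (zs ψ))).re := by
    intro ψ hψ
    rw [hH2 ψ hψ, Complex.add_re, Complex.add_re]
    have e1 : (Complex.I * a / (2 * π)).re = 0 := by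
      have : Complex.I * a / (2 * π) = ((a / (2 * π) : ℝ) : ℂ) * Complex.I := by
        push_cast
        ring
      rw [this, Complex.re_ofReal_mul, Complex.I_re, mul_zero]
    have e2 := hF.neg (zs ψ) (hzD ψ hψ)
    have e3 : (-(1 / (2 * π)) * (Complex.cos (ψ / 2) /
        (Complex.cos (zs ψ / 2) * rr ψ (zs ψ)))).re = -(1 / (2 * π)) *
        (Complex.cos (ψ / 2) / (Complex.cos (zs ψ / 2) * rr ψ (zs ψ))).re := by
      have : (-(1 / (2 * π)) : ℂ) = ((-(1 / (2 * π)) : ℝ) : ℂ) := by push_cast; ring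
      rw [this, Complex.re_ofReal_mul]
    rw [e1, e3]
    linarith
  have hR : ∀ ψ ∈ DD, 3 / 5 ≤
      (Complex.cos (ψ / 2) / (Complex.cos (zs ψ / 2) * rr ψ (zs ψ))).re := by
    intro ψ hψ
    have := hH.hes ψ hψ (zs ψ) (hzD ψ hψ) 0 1
    linarith
  have hGn : ∀ ψ ∈ DD, 3 / 5 / (2 * π) ≤ ‖fderiv ℂ H (ψ, zs ψ) (0, 1)‖ := by
    intro ψ hψ
    have h1 := hG ψ hψ
    have h2 := hR ψ hψ
    have h3 := (Complex.abs_re_le_norm (fderiv ℂ H (ψ, zs ψ) (0, 1)))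
    have h4 := neg_le_abs (fderiv ℂ H (ψ, zs ψ) (0, 1)).re
    have h5 : 1 / (2 * π) * (3 / 5) ≤ 1 / (2 * π) *
        (Complex.cos (ψ / 2) / (Complex.cos (zs ψ / 2) * rr ψ (zs ψ))).re :=
      mul_le_mul_of_nonneg_left h2 (by positivity)
    have h6 : 3 / 5 / (2 * π) = 1 / (2 * π) * (3 / 5) := by ring
    rw [h6]
    linarith
  -- differentiability of `zs`
  have hzd : ∀ ψ ∈ DD, DifferentiableAt ℂ zs ψ := by
    intro ψ hψ
    have hd := hP.d21 ψ hψ (zs ψ) (hzD ψ hψ)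
    obtain ⟨K, hK⟩ := hd.isBigO_sub.bound
    refine implicit (H := H) (hHd ψ hψ) ?_ (K := K) ?_ ?_
    · filter_upwards [DD_open.mem_nhds hψ] with w hw
      exact hH0 w hw
    · filter_upwards [DD_open.mem_nhds hψ, hK] with w hw hK
      exact (hlip ψ hψ w hw).trans hK
    · intro h0
      have h1 := hGn ψ hψ
      rw [h0, norm_zero] at h1
      have : 0 < 3 / 5 / (2 * π) := by positivity
      linarith
  have hzeq : ∀ ψ ∈ DD, fderiv ℂ H (ψ, zs ψ) (1, 0) +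
      deriv zs ψ * fderiv ℂ H (ψ, zs ψ) (0, 1) = 0 := by
    intro ψ hψ
    have e1 : HasDerivAt zs (deriv zs ψ) ψ := (hzd ψ hψ).hasDerivAt
    have e4 : HasDerivAt (fun ψ => H (ψ, zs ψ)) (fderiv ℂ H (ψ, zs ψ) (1, deriv zs ψ)) ψ :=
      HasFDerivAt.comp_hasDerivAt (l := H) (f := fun ψ => (ψ, zs ψ)) ψ
        (hHd ψ hψ).hasFDerivAt ((hasDerivAt_id ψ).prodMk e1)
    have e5 : HasDerivAt (fun ψ => H (ψ, zs ψ)) 0 ψ := by
      refine (hasDerivAt_const ψ (0 : ℂ)).congr_of_eventuallyEq ?_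
      filter_upwards [DD_open.mem_nhds hψ] with w hw
      exact hH0 w hw
    have e6 := e4.unique e5
    rw [fderiv_pair, one_mul] at e6
    exact e6
  -- the critical value
  obtain ⟨F', hF'⟩ : ∃ F' : ℂ → ℂ, F' = fun ψ => qq a F (zs ψ) + sg (zs ψ) ψ := ⟨_, rfl⟩
  have hFd' : ∀ ψ ∈ DD, HasDerivAt F' (s1 ψ (zs ψ)) ψ := by
    intro ψ hψ
    have hzψ := hzD ψ hψ
    have e1 : HasDerivAt zs (deriv zs ψ) ψ := (hzd ψ hψ).hasDerivAt
    have e0 : HasDerivAt (fun w : ℂ => Complex.I * a * w ^ 2 / (4 * π) + Complex.I * w)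
        (Complex.I * a * zs ψ / (2 * π) + Complex.I) (zs ψ) := by
      have h1 := (((hasDerivAt_id (zs ψ)).pow 2).const_mul (Complex.I * a)).div_const
        (4 * (π : ℂ))
      have h2 := (hasDerivAt_id (zs ψ)).const_mul Complex.I
      refine (h1.add h2).congr_deriv ?_
      simp
      ring
    have e2 : HasDerivAt (fun ψ => qq a F (zs ψ))
        ((Complex.I * a * zs ψ / (2 * π) + Complex.I + deriv F (zs ψ)) * deriv zs ψ) ψ :=
      HasDerivAt.comp ψ (h₂ := qq a F)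
        (e0.add (hF.Fan.differentiableAt (DD_open.mem_nhds hzψ)).hasDerivAt) e1
    have e4 : HasDerivAt (fun ψ => SG (ψ, zs ψ)) (fderiv ℂ SG (ψ, zs ψ) (1, deriv zs ψ)) ψ :=
      HasFDerivAt.comp_hasDerivAt (l := SG) (f := fun ψ => (ψ, zs ψ)) ψ
        (at_W (SG_d hP) hψ hzψ).hasFDerivAt ((hasDerivAt_id ψ).prodMk e1)
    have e5 : F' = fun ψ => qq a F (zs ψ) + SG (ψ, zs ψ) := by
      rw [hF']
      funext w
      rw [hP.sym]
      rfl
    rw [e5]
    refine (e2.add e4).congr_deriv ?_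
    rw [fderiv_pair]
    have e6 : fderiv ℂ SG (ψ, zs ψ) (1, 0) = s1 ψ (zs ψ) := g1_eq hP hψ hzψ
    have e7 : fderiv ℂ SG (ψ, zs ψ) (0, 1) = s1 (zs ψ) ψ := by
      rw [s12 hP]
      exact g2_eq hP hψ hzψ
    rw [e6, e7]
    linear_combination (deriv zs ψ) * hcrit ψ hψ
  have hFdd : ∀ ψ ∈ DD, deriv (deriv F') ψ =
      -(1 / (2 * π)) * (Complex.cos (zs ψ / 2) / (Complex.cos (ψ / 2) * rr ψ (zs ψ))) +
        deriv zs ψ * fderiv ℂ H (ψ, zs ψ) (1, 0) := by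
    intro ψ hψ
    have hzψ := hzD ψ hψ
    have e1 : HasDerivAt zs (deriv zs ψ) ψ := (hzd ψ hψ).hasDerivAt
    have h1 : deriv F' =ᶠ[𝓝 ψ] fun ψ => g1 (ψ, zs ψ) := by
      filter_upwards [DD_open.mem_nhds hψ] with w hw
      rw [(hFd' w hw).deriv, g1_eq hP hw (hzD w hw)]
    rw [h1.deriv_eq]
    have e4 : HasDerivAt (fun ψ => g1 (ψ, zs ψ)) (fderiv ℂ g1 (ψ, zs ψ) (1, deriv zs ψ)) ψ :=
      HasFDerivAt.comp_hasDerivAt (l := g1) (f := fun ψ => (ψ, zs ψ)) ψ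
        (at_W (g1_d hP) hψ hzψ).hasFDerivAt ((hasDerivAt_id ψ).prodMk e1)
    rw [e4.deriv, fderiv_pair, one_mul, g11 hP hψ hzψ, g12 hP hψ hzψ, hH1 ψ hψ]
  refine ⟨F', zs, ⟨?_, ?_, hcrit, ?_, ?_⟩, ?_, ?_, ?_, ?_, ?_, ?_⟩
  · intro ψ hψ
    exact (hzd ψ hψ).differentiableWithinAt
  · intro ψ hψ
    exact ⟨D1_D0 (hz1 ψ hψ) (hprop ψ hψ).1, (hprop ψ hψ).1⟩
  · intro ψ _
    rw [hF']
  · intro ψ hψ
    rw [← s12 hP]
    exact hFd' ψ hψ
  · intro ψ hψ
    exact (hFd' ψ hψ).differentiableAt.differentiableWithinAt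
  · -- even
    intro ψ hψ
    have hψn := neg_DD hψ
    have hz : zs (-ψ) = zs ψ := by
      refine huniq ψ hψ _ (hz1 _ hψn) ?_
      have h1 := hz0 _ hψn
      rw [Eq_child] at h1 ⊢
      have h2 : s1 (zs (-ψ)) (-ψ) = s1 (zs (-ψ)) ψ := by
        unfold s1
        have : (fun w => sg w (-ψ)) = fun w => sg w ψ := funext fun w => ev2 hP w ψ
        rw [this]
      rw [h2] at h1
      exact h1
    rw [hF']
    show qq a F (zs (-ψ)) + sg (zs (-ψ)) (-ψ) = qq a F (zs ψ) + sg (zs ψ) ψ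
    rw [hz, ev2 hP]
  · -- positive at 0
    obtain ⟨z, hz⟩ : ∃ z, z = zs 0 := ⟨_, rfl⟩
    have hzm : z ∈ D1 := by rw [hz]; exact hz1 0 zero_DD
    have hc0 := hcrit 0 zero_DD
    have hpr := hprop 0 zero_DD
    rw [← hz] at hc0 hpr
    have T1 := F_taylor hF hzm
    have T2 := sg_taylor hP hM hzm
    have T3 := hF.mul z hzm
    have T4 := hM.m1 z hzm 0 zero_D1
    obtain ⟨d1, hd1⟩ : ∃ d, d = F z + t * z ^ 2 / (4 * π) - F 0 := ⟨_, rfl⟩
    obtain ⟨d2, hd2⟩ : ∃ d, d = sg z 0 + z ^ 2 / (4 * π) - sg 0 0 := ⟨_, rfl⟩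
    obtain ⟨d3, hd3⟩ : ∃ d, d = deriv F z + t * z / (2 * π) := ⟨_, rfl⟩
    obtain ⟨d4, hd4⟩ : ∃ d, d = s1 z 0 + z / (2 * π) := ⟨_, rfl⟩
    rw [← hd1] at T1
    rw [← hd2] at T2
    rw [← hd3] at T3
    rw [← hd4] at T4
    have hval : F' 0 = F 0 + ((2 * bet : ℝ) : ℂ) + Complex.I * z / 2 - z / 2 * (d3 + d4) +
        (d1 + d2) := by
      rw [hF']
      show qq a F (zs 0) + sg (zs 0) 0 = _
      rw [← hz, ← hP.zero, hd1, hd2, hd3, hd4]
      unfold qq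
      linear_combination (z / 2) * hc0
    rw [hval]
    have hn : ‖-(z / 2 * (d3 + d4)) + (d1 + d2)‖ ≤ 21 / 500 := by
      have hzn : 0 ≤ ‖z‖ := norm_nonneg z
      have q1 : ‖z / 2 * (d3 + d4)‖ ≤ ‖z‖ / 2 * (t / 20 * ‖z‖ / (2 * π) +
          1 / 20 * ‖z‖ / (2 * π)) := by
        rw [norm_mul, norm_div]
        have : ‖(2 : ℂ)‖ = 2 := by norm_num
        rw [this]
        exact mul_le_mul_of_nonneg_left ((norm_add_le _ _).trans (add_le_add T3 T4))
          (by positivity)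
      have q2 : ‖d1 + d2‖ ≤ t / 20 / (2 * π) * ‖z‖ ^ 2 + 1 / 20 / (2 * π) * ‖z‖ ^ 2 :=
        (norm_add_le _ _).trans (add_le_add T1 T2)
      have q3 : ‖-(z / 2 * (d3 + d4)) + (d1 + d2)‖ ≤ ‖z / 2 * (d3 + d4)‖ + ‖d1 + d2‖ := by
        refine (norm_add_le _ _).trans ?_
        rw [norm_neg]
      have q4 : ‖z‖ / 2 * (t / 20 * ‖z‖ / (2 * π) + 1 / 20 * ‖z‖ / (2 * π)) +
          (t / 20 / (2 * π) * ‖z‖ ^ 2 + 1 / 20 / (2 * π) * ‖z‖ ^ 2) =
          3 / (80 * π) * ‖z‖ * (‖z‖ * (t + 1 : ℕ)) := by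
        push_cast
        field_simp
        ring
      have q5 : 3 / (80 * π) * ‖z‖ * (‖z‖ * (t + 1 : ℕ)) ≤ 3 / (80 * π) * ‖z‖ * (8 / 3 * π) :=
        mul_le_mul_of_nonneg_left hpr.2 (by positivity)
      have q6 : 3 / (80 * π) * ‖z‖ * (8 / 3 * π) = ‖z‖ / 10 := by
        field_simp
        ring
      have q7 := hzm.1
      linarith
    have hre := neg_le_abs (-(z / 2 * (d3 + d4)) + (d1 + d2)).re
    have hre2 := (Complex.abs_re_le_norm (-(z / 2 * (d3 + d4)) + (d1 + d2))).trans hn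
    have hIz : (Complex.I * z / 2).re = -z.im / 2 := by
      have : Complex.I * z / 2 = ((1 / 2 : ℝ) : ℂ) * (Complex.I * z) := by push_cast; ring
      rw [this, Complex.re_ofReal_mul, Complex.I_mul_re]
      ring
    have hsplit : (F 0 + ((2 * bet : ℝ) : ℂ) + Complex.I * z / 2 - z / 2 * (d3 + d4) +
        (d1 + d2)).re = (F 0).re + 2 * bet + -z.im / 2 +
        (-(z / 2 * (d3 + d4)) + (d1 + d2)).re := by
      rw [← hIz]
      simp only [Complex.add_re, Complex.sub_re, Complex.neg_re, Complex.ofReal_re]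
      ring
    rw [hsplit]
    have hF0 := hF.pos
    have hb := bet_low
    have hp := Real.pi_lt_d2
    have him := (le_abs_self _).trans hzm.2
    linarith
  · -- first derivative
    intro ψ hψ
    rw [(hFd' ψ (D1_DD hψ)).deriv]
    have := hM.m1 ψ hψ (zs ψ) (hz1 ψ (D1_DD hψ))
    simpa using this
  · -- second derivative
    intro ψ hψ
    have hψD := D1_DD hψ
    rw [hFdd ψ hψD]
    have h1 := hH.sec1 ψ hψ (zs ψ) (hz1 ψ hψD)
    have h2 := hH.mixb ψ hψ (zs ψ) (hz1 ψ hψD)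
    have h3 := hGn ψ hψD
    have h4 := hzeq ψ hψD
    have h5 := hH1 ψ hψD
    obtain ⟨B, hB⟩ : ∃ B, B = fderiv ℂ H (ψ, zs ψ) (1, 0) := ⟨_, rfl⟩
    obtain ⟨G, hGd⟩ : ∃ G, G = fderiv ℂ H (ψ, zs ψ) (0, 1) := ⟨_, rfl⟩
    obtain ⟨v, hv⟩ : ∃ v, v = deriv zs ψ := ⟨_, rfl⟩
    rw [← hB] at h4 h5 ⊢
    rw [← hGd] at h3 h4
    rw [← hv] at h4 ⊢
    have hBn : ‖B‖ ≤ 1 / 20 / (2 * π) := by
      rw [h5, norm_mul]
      have : ‖(1 / (2 * π) : ℂ)‖ = 1 / (2 * π) := by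
        rw [norm_div, norm_one, two_pi_norm]
      rw [this]
      calc 1 / (2 * π) * ‖Complex.sin (ψ / 2) * Complex.sin (zs ψ / 2) / rr ψ (zs ψ)‖
          ≤ 1 / (2 * π) * (1 / 20) := mul_le_mul_of_nonneg_left h2 (by positivity)
        _ = 1 / 20 / (2 * π) := by ring
    have hvn : ‖v‖ * (3 / 5) ≤ 1 / 20 := by
      have h6 : v * G = -B := by linear_combination h4
      have h7 : ‖v‖ * ‖G‖ = ‖B‖ := by rw [← norm_mul, h6, norm_neg]
      have h8 : ‖v‖ * (3 / 5 / (2 * π)) ≤ 1 / 20 / (2 * π) :=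
        (mul_le_mul_of_nonneg_left h3 (norm_nonneg _)).trans (h7.le.trans hBn)
      rw [← mul_div_assoc] at h8
      exact (div_le_div_iff_of_pos_right (by positivity)).1 h8
    have e1 : -(1 / (2 * π)) *
        (Complex.cos (zs ψ / 2) / (Complex.cos (ψ / 2) * rr ψ (zs ψ))) + v * B +
        ((1 : ℕ) : ℂ) / (2 * π) =
        -((Complex.cos (zs ψ / 2) / (Complex.cos (ψ / 2) * rr ψ (zs ψ)) - 1) / (2 * π)) +
        v * B := by
      push_cast
      ring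
    rw [e1]
    refine (norm_add_le _ _).trans ?_
    rw [norm_neg, norm_div, two_pi_norm, norm_mul]
    have e2 := div_le_div_of_nonneg_right h1 (by positivity : 0 ≤ 2 * π)
    have e3 : ‖v‖ * ‖B‖ ≤ 1 / 12 * (1 / 20 / (2 * π)) :=
      mul_le_mul (by linarith) hBn (norm_nonneg _) (by norm_num)
    have e4 : (1 : ℝ) / 12 / (2 * π) + 1 / 12 * (1 / 20 / (2 * π)) ≤
        ((1 : ℕ) : ℝ) / 10 / (2 * π) := by
      have : (1 : ℝ) / 12 / (2 * π) + 1 / 12 * (1 / 20 / (2 * π)) =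
        (1 / 12 + 1 / 240) / (2 * π) := by ring
      rw [this]
      apply div_le_div_of_nonneg_right _ (by positivity)
      norm_num
    linarith
  · -- the real part of the second derivative
    intro ψ hψ
    rw [hFdd ψ hψ]
    have h4 := hzeq ψ hψ
    have h5 := hH1 ψ hψ
    have h6 := hG ψ hψ
    have h7 := hR ψ hψ
    obtain ⟨B, hB⟩ : ∃ B, B = fderiv ℂ H (ψ, zs ψ) (1, 0) := ⟨_, rfl⟩
    obtain ⟨G, hGd⟩ : ∃ G, G = fderiv ℂ H (ψ, zs ψ) (0, 1) := ⟨_, rfl⟩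
    obtain ⟨v, hv⟩ : ∃ v, v = deriv zs ψ := ⟨_, rfl⟩
    rw [← hB] at h4 h5 ⊢
    rw [← hGd] at h4 h6
    rw [← hv] at h4 ⊢
    have hes := hH.hes ψ hψ (zs ψ) (hzD ψ hψ) 1 v.re
    obtain ⟨P, hPd⟩ : ∃ P, P = Complex.cos (zs ψ / 2) / (Complex.cos (ψ / 2) * rr ψ (zs ψ)) :=
      ⟨_, rfl⟩
    obtain ⟨Q, hQd⟩ : ∃ Q, Q = Complex.sin (ψ / 2) * Complex.sin (zs ψ / 2) / rr ψ (zs ψ) :=
      ⟨_, rfl⟩
    obtain ⟨R, hRd⟩ : ∃ R, R = Complex.cos (ψ / 2) / (Complex.cos (zs ψ / 2) * rr ψ (zs ψ)) :=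
      ⟨_, rfl⟩
    rw [← hPd, ← hQd, ← hRd] at hes
    rw [← hPd]
    rw [← hQd] at h5
    rw [← hRd] at h6 h7
    -- `Re (A + v B) = Re A + 2 Re B Re v + Re G |v|^2`
    have h8 : v * G = -B := by linear_combination h4
    have hBre : B.re = 1 / (2 * π) * Q.re := by
      rw [h5]
      have : (1 / (2 * π) : ℂ) = ((1 / (2 * π) : ℝ) : ℂ) := by push_cast; ring
      rw [this, Complex.re_ofReal_mul]
    have hvB : (v * B).re = 2 * B.re * v.re + G.re * Complex.normSq v := by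
      have e1 : (Complex.normSq v : ℂ) * G = -(B * (starRingEnd ℂ) v) := by
        rw [← Complex.mul_conj]
        linear_combination ((starRingEnd ℂ) v) * h8
      have e2 := congrArg Complex.re e1
      rw [Complex.re_ofReal_mul, Complex.neg_re, Complex.mul_re] at e2
      rw [Complex.mul_re]
      simp only [Complex.conj_re, Complex.conj_im] at e2
      linarith
    have hA : (-(1 / (2 * π)) * P).re = -(1 / (2 * π)) * P.re := by
      have : (-(1 / (2 * π)) : ℂ) = ((-(1 / (2 * π)) : ℝ) : ℂ) := by push_cast; ring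
      rw [this, Complex.re_ofReal_mul]
    rw [Complex.add_re, hA, hvB, hBre]
    have hvn : v.re ^ 2 ≤ Complex.normSq v := by
      rw [Complex.normSq_apply]
      nlinarith [sq_nonneg v.im]
    have hns : 0 ≤ Complex.normSq v := Complex.normSq_nonneg v
    have e3 : G.re * Complex.normSq v ≤ -(1 / (2 * π)) * R.re * Complex.normSq v :=
      mul_le_mul_of_nonneg_right h6 hns
    have e4 : R.re * v.re ^ 2 ≤ R.re * Complex.normSq v :=
      mul_le_mul_of_nonneg_left hvn (by linarith)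
    have e5 : 0 ≤ P.re - 2 * Q.re * v.re + R.re * Complex.normSq v := by
      have : 0 ≤ 3 / 5 * ((1 : ℝ) ^ 2 + v.re ^ 2) := by positivity
      linarith
    have e6 := mul_nonneg (by positivity : 0 ≤ 1 / (2 * π)) e5
    linarith

theorem crt : S_CRT := fun hP hH hM =>
  ⟨fun t F a hF hL => crt_child hP hH hM t F a hF hL,
    fun t F a ht hF hL => crt_root t F a ht hF hL⟩

end Pool.Agent.N424.EK
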