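import Pool.Agent.N561.EK.Stm
import Pool.Agent.TH554.VHC.A
import Pool.Agent.Helper540.Holo

/-!
# EK/10: critical points, preparations (helper424)
-/

set_option autoImplicit false

namespace Pool.Agent.N424.EK

open Finset Filter Topology Metric
open Pool.Agent.W711.HT hiding XX
open Pool.Agent.N561
open Pool.Agent.N561.EK
open Pool.Agent.TH554.VHC
open scoped Real

/-! ### The domains -/

theorem DD_open : IsOpen DD :=
  (isOpen_lt (Complex.continuous_re.abs) continuous_const).inter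
    (isOpen_lt (Complex.continuous_im.abs) continuous_const)

theorem D1_DD : D1 ⊆ DD := by
  intro w hw
  refine ⟨?_, ?_⟩
  · have := (Complex.abs_re_le_norm w).trans hw.1
    linarith
  · have := hw.2
    linarith

theorem D1_closed : IsClosed D1 :=
  (isClosed_le continuous_norm continuous_const).inter
    (isClosed_le (Complex.continuous_im.abs) continuous_const)

theorem D1_convex : Convex ℝ D1 := by
  intro z hz w hw s t hs ht hst
  refine ⟨?_, ?_⟩
  · calc ‖s • z + t • w‖ ≤ ‖s • z‖ + ‖t • w‖ := norm_add_le _ _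
      _ = s * ‖z‖ + t * ‖w‖ := by
        rw [norm_smul, norm_smul, Real.norm_of_nonneg hs, Real.norm_of_nonneg ht]
      _ ≤ s * (21 / 50) + t * (21 / 50) :=
        add_le_add (mul_le_mul_of_nonneg_left hz.1 hs) (mul_le_mul_of_nonneg_left hw.1 ht)
      _ = 21 / 50 := by rw [← add_mul, hst, one_mul]
  · have e : (s • z + t • w).im = s * z.im + t * w.im := by simp
    rw [e]
    calc |s * z.im + t * w.im| ≤ |s * z.im| + |t * w.im| := abs_add_le _ _
      _ = s * |z.im| + t * |w.im| := by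
        rw [abs_mul, abs_mul, abs_of_nonneg hs, abs_of_nonneg ht]
      _ ≤ s * (23 / 100) + t * (23 / 100) :=
        add_le_add (mul_le_mul_of_nonneg_left hz.2 hs) (mul_le_mul_of_nonneg_left hw.2 ht)
      _ = 23 / 100 := by rw [← add_mul, hst, one_mul]

theorem zero_D1 : (0 : ℂ) ∈ D1 := by
  refine ⟨?_, ?_⟩ <;> norm_num

theorem zero_DD : (0 : ℂ) ∈ DD := D1_DD zero_D1

theorem neg_DD {w : ℂ} (h : w ∈ DD) : -w ∈ DD := by
  refine ⟨?_, ?_⟩
  · rw [Complex.neg_re, abs_neg]; exact h.1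
  · rw [Complex.neg_im, abs_neg]; exact h.2

/-! ### The fixed point -/

theorem numS {n : ℕ} {a : ℤ} (hL : LG n a) :
    (n : ℝ) ≤ ‖(n : ℂ) - Complex.I * a‖ ∧ 16 ≤ ‖(n : ℂ) - Complex.I * a‖ ∧
      32 * (n : ℝ) ≤ ‖(n : ℂ) - Complex.I * a‖ ^ 2 ∧
      ‖(n : ℂ) - Complex.I * a‖ ^ 2 = (n : ℝ) ^ 2 + (a : ℝ) ^ 2 := by
  have hn0 : (0 : ℝ) ≤ n := Nat.cast_nonneg n
  have hS : ‖(n : ℂ) - Complex.I * a‖ ^ 2 = (n : ℝ) ^ 2 + (a : ℝ) ^ 2 := by
    rw [← Complex.normSq_eq_norm_sq, Complex.normSq_apply]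
    simp
    ring
  have h0 : 0 ≤ ‖(n : ℂ) - Complex.I * a‖ := norm_nonneg _
  obtain ⟨S, hSd⟩ : ∃ S : ℝ, S = ‖(n : ℂ) - Complex.I * a‖ := ⟨_, rfl⟩
  rw [← hSd] at hS h0 ⊢
  have h1 : (n : ℝ) ≤ S := by
    apply le_of_sq_le_sq _ h0
    rw [hS]
    nlinarith [sq_nonneg (a : ℝ)]
  rcases hL with h | h
  · have ha : (16 : ℝ) ≤ |(a : ℝ)| := by exact_mod_cast h
    have ha2 : (256 : ℝ) ≤ (a : ℝ) ^ 2 := by
      rw [← sq_abs]
      nlinarith
    refine ⟨h1, ?_, ?_, hS⟩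
    · apply le_of_sq_le_sq _ h0
      rw [hS]
      nlinarith [sq_nonneg (n : ℝ)]
    · rw [hS]
      nlinarith [sq_nonneg ((n : ℝ) - 16)]
  · have hn : (32 : ℝ) ≤ n := by exact_mod_cast h
    refine ⟨h1, by linarith, ?_, hS⟩
    rw [hS]
    nlinarith [sq_nonneg (a : ℝ)]

/-- the equation of the critical points -/
noncomputable def Eq (n : ℕ) (a : ℤ) (h : ℂ → ℂ) (z : ℂ) : ℂ :=
  Complex.I * a * z / (2 * π) + Complex.I - n * z / (2 * π) + h z

structure HB (n : ℕ) (h : ℂ → ℂ) : Prop where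
  b : ∀ φ ∈ D1, ‖h φ‖ ≤ ((n : ℝ) / 20 + 1 / 5) * ‖φ‖ / (2 * π)
  d : ∀ φ ∈ D1, DifferentiableAt ℂ h φ
  d' : ∀ φ ∈ D1, ‖deriv h φ‖ ≤ ((n : ℝ) / 10 + 3 / 20) / (2 * π)

theorem HB.lip {n : ℕ} {h : ℂ → ℂ} (H : HB n h) {z w : ℂ} (hz : z ∈ D1) (hw : w ∈ D1) :
    ‖h z - h w‖ ≤ ((n : ℝ) / 10 + 3 / 20) / (2 * π) * ‖z - w‖ :=
  D1_convex.norm_image_sub_le_of_norm_deriv_le H.d H.d' hw hz

theorem colip {n : ℕ} {a : ℤ} (hL : LG n a) {h : ℂ → ℂ} (H : HB n h) {z w : ℂ} (hz : z ∈ D1)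
    (hw : w ∈ D1) : ‖z - w‖ ≤ ‖Eq n a h z - Eq n a h w‖ := by
  obtain ⟨h1, h2, -, -⟩ := numS hL
  have hpi := Real.pi_pos
  have e1 : Eq n a h z - Eq n a h w =
      -(((n : ℂ) - Complex.I * a) * (z - w) / (2 * π)) + (h z - h w) := by
    unfold Eq
    ring
  have e2 : ‖((n : ℂ) - Complex.I * a) * (z - w) / (2 * π)‖ =
      ‖(n : ℂ) - Complex.I * a‖ * ‖z - w‖ / (2 * π) := by
    rw [norm_div, norm_mul]
    congr 1
    rw [norm_mul, Complex.norm_real, Real.norm_of_nonneg hpi.le]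
    norm_num
  have e3 : ‖(n : ℂ) - Complex.I * a‖ * ‖z - w‖ / (2 * π) - ‖h z - h w‖ ≤
      ‖Eq n a h z - Eq n a h w‖ := by
    rw [e1, ← e2, ← norm_neg (((n : ℂ) - Complex.I * a) * (z - w) / (2 * π))]
    have := norm_sub_norm_le (-(((n : ℂ) - Complex.I * a) * (z - w) / (2 * π))) (-(h z - h w))
    rwa [norm_neg (h z - h w), sub_neg_eq_add] at this
  have e4 := H.lip hz hw
  have e5 : ‖z - w‖ ≤ ‖(n : ℂ) - Complex.I * a‖ * ‖z - w‖ / (2 * π) -
      ((n : ℝ) / 10 + 3 / 20) / (2 * π) * ‖z - w‖ := by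
    rw [show ‖(n : ℂ) - Complex.I * a‖ * ‖z - w‖ / (2 * π) -
      ((n : ℝ) / 10 + 3 / 20) / (2 * π) * ‖z - w‖ =
      (‖(n : ℂ) - Complex.I * a‖ - ((n : ℝ) / 10 + 3 / 20)) / (2 * π) * ‖z - w‖ by ring]
    refine le_mul_of_one_le_left (norm_nonneg _) ?_
    rw [le_div_iff₀ (by positivity), one_mul]
    have := Real.pi_lt_d2
    linarith
  linarith

/-- properties of the solutions -/
theorem sol_prop {n : ℕ} (hn : 1 ≤ n) {a : ℤ} {h : ℂ → ℂ} (H : HB n h) {z : ℂ}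
    (hz : z ∈ D1) (h0 : Eq n a h z = 0) :
    0 < z.im ∧ ‖z‖ * n ≤ 8 / 3 * π := by
  have hpi := Real.pi_pos
  have hpi0 : (π : ℂ) ≠ 0 := Complex.ofReal_ne_zero.2 hpi.ne'
  have hn1 : (1 : ℝ) ≤ n := by exact_mod_cast hn
  have hz0 : z ≠ 0 := by
    rintro rfl
    have h1 := H.b 0 zero_D1
    rw [norm_zero, mul_zero, zero_div] at h1
    have h2 : h 0 = 0 := norm_le_zero_iff.1 h1
    unfold Eq at h0
    rw [h2] at h0
    simp at h0
  have hzn : 0 < ‖z‖ := norm_pos_iff.2 hz0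
  obtain ⟨e, he⟩ : ∃ e : ℂ, e = 2 * π * h z / z := ⟨_, rfl⟩
  have hez : e * z = 2 * π * h z := by rw [he, div_mul_cancel₀ _ hz0]
  have hen : ‖e‖ ≤ (n : ℝ) / 20 + 1 / 5 := by
    have h1 := H.b z hz
    rw [he, norm_div, norm_mul, norm_mul, Complex.norm_real, Real.norm_of_nonneg hpi.le,
      div_le_iff₀ hzn]
    rw [le_div_iff₀ (by positivity)] at h1
    have : ‖(2 : ℂ)‖ = 2 := by norm_num
    rw [this]
    linarith
  obtain ⟨w, hw⟩ : ∃ w : ℂ, w = n - Complex.I * a - e := ⟨_, rfl⟩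
  have hzw : z * w = 2 * π * Complex.I := by
    unfold Eq at h0
    have h1 : 2 * π * (Complex.I * a * z / (2 * π) + Complex.I - n * z / (2 * π) + h z) = 0 := by
      rw [h0, mul_zero]
    have h2 : 2 * π * (Complex.I * a * z / (2 * π) + Complex.I - n * z / (2 * π) + h z) =
        Complex.I * a * z + 2 * π * Complex.I - n * z + 2 * π * h z := by
      field_simp
    rw [hw]
    linear_combination -h1 + h2 - hez
  have hwre : 3 / 4 * (n : ℝ) ≤ w.re := by
    have h1 : w.re = n - e.re := by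
      rw [hw]
      simp
    rw [h1]
    have := (Complex.abs_re_le_norm e).trans hen
    have := (abs_le.1 this).2
    linarith
  have hwpos : 0 < w.re := by linarith
  have hw0 : w ≠ 0 := by
    rintro rfl
    simp at hwpos
  constructor
  · have h1 : z = 2 * π * Complex.I / w := by
      rw [eq_div_iff hw0, hzw]
    have h2 : z.im = 2 * π * w.re / Complex.normSq w := by
      rw [h1, Complex.div_im]
      simp
    rw [h2]
    have := Complex.normSq_pos.2 hw0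
    positivity
  · have h1 : ‖z‖ * ‖w‖ = 2 * π := by
      rw [← norm_mul, hzw, norm_mul, norm_mul, Complex.norm_I, Complex.norm_real,
        Real.norm_of_nonneg hpi.le]
      norm_num
    have h2 : w.re ≤ ‖w‖ := Complex.re_le_norm w
    have h3 : ‖z‖ * (3 / 4 * n) ≤ 2 * π := by
      rw [← h1]
      exact mul_le_mul_of_nonneg_left (hwre.trans h2) hzn.le
    linarith

/-- existence of the solution -/
theorem sol_ex {n : ℕ} {a : ℤ} (hL : LG n a) {h : ℂ → ℂ} (H : HB n h) :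
    ∃ z ∈ D1, Eq n a h z = 0 := by
  obtain ⟨h1, h2, h3, h4⟩ := numS hL
  have hpi := Real.pi_pos
  have hpi0 : (π : ℂ) ≠ 0 := Complex.ofReal_ne_zero.2 hpi.ne'
  have hn0 : (0 : ℝ) ≤ n := Nat.cast_nonneg n
  obtain ⟨S, hS⟩ : ∃ S : ℝ, S = ‖(n : ℂ) - Complex.I * a‖ := ⟨_, rfl⟩
  rw [← hS] at h1 h2 h3 h4
  have hS0 : 0 < S := by linarith
  have hne : (n : ℂ) - Complex.I * a ≠ 0 := by
    intro h0
    rw [h0, norm_zero] at hS
    linarith
  obtain ⟨T, hT⟩ : ∃ T : ℂ → ℂ, T = fun φ => 2 * π * (Complex.I + h φ) /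
    ((n : ℂ) - Complex.I * a) := ⟨_, rfl⟩
  have hb : ∀ φ ∈ D1, ‖2 * π * h φ‖ ≤ ((n : ℝ) / 20 + 1 / 5) * (21 / 50) := by
    intro φ hφ
    have h5 := H.b φ hφ
    rw [le_div_iff₀ (by positivity)] at h5
    rw [norm_mul, norm_mul, Complex.norm_real, Real.norm_of_nonneg hpi.le]
    have : ‖(2 : ℂ)‖ = 2 := by norm_num
    rw [this]
    have h6 : ((n : ℝ) / 20 + 1 / 5) * ‖φ‖ ≤ ((n : ℝ) / 20 + 1 / 5) * (21 / 50) :=
      mul_le_mul_of_nonneg_left hφ.1 (by positivity)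
    linarith
  have hmaps : Set.MapsTo T D1 D1 := by
    intro φ hφ
    have hbφ := hb φ hφ
    have e1 : T φ = (2 * π * Complex.I + 2 * π * h φ) / ((n : ℂ) - Complex.I * a) := by
      rw [hT]
      ring
    refine ⟨?_, ?_⟩
    · rw [e1, norm_div, ← hS, div_le_iff₀ hS0]
      have e2 : ‖2 * π * Complex.I‖ = 2 * π := by
        rw [norm_mul, norm_mul, Complex.norm_I, Complex.norm_real, Real.norm_of_nonneg hpi.le]
        norm_num
      have e3 := norm_add_le (2 * π * Complex.I) (2 * π * h φ)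
      rw [e2] at e3
      have := Real.pi_lt_d4
      linarith
    · have e2 : T φ = 2 * π * Complex.I / ((n : ℂ) - Complex.I * a) +
          2 * π * h φ / ((n : ℂ) - Complex.I * a) := by
        rw [e1, add_div]
      have e3 : (2 * π * Complex.I / ((n : ℂ) - Complex.I * a)).im = 2 * π * n / S ^ 2 := by
        rw [Complex.div_im, Complex.normSq_eq_norm_sq, ← hS]
        simp
      have e4 : |(2 * π * h φ / ((n : ℂ) - Complex.I * a)).im| ≤
          ((n : ℝ) / 20 + 1 / 5) * (21 / 50) / S := by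
        refine (Complex.abs_im_le_norm _).trans ?_
        rw [norm_div, ← hS]
        exact div_le_div_of_nonneg_right hbφ hS0.le
      rw [e2, Complex.add_im, e3]
      refine (abs_add_le _ _).trans ?_
      have e5 : |2 * π * n / S ^ 2| ≤ 2 * π / 32 := by
        rw [abs_of_nonneg (by positivity), div_le_iff₀ (by positivity)]
        have := mul_le_mul_of_nonneg_left h3 (by positivity : 0 ≤ 2 * π / 32)
        linarith
      have e6 : ((n : ℝ) / 20 + 1 / 5) * (21 / 50) / S ≤ 21 / 800 := by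
        rw [div_le_iff₀ hS0]
        linarith
      have := Real.pi_lt_d4
      linarith
  have hlip : ∀ φ ∈ D1, ∀ φ' ∈ D1, dist (T φ) (T φ') ≤ 1 / 2 * dist φ φ' := by
    intro φ hφ φ' hφ'
    have e1 : T φ - T φ' = 2 * π * (h φ - h φ') / ((n : ℂ) - Complex.I * a) := by
      rw [hT]
      ring
    rw [dist_eq_norm, dist_eq_norm, e1, norm_div, norm_mul, norm_mul, Complex.norm_real,
      Real.norm_of_nonneg hpi.le, ← hS, div_le_iff₀ hS0]
    have e2 := H.lip hφ hφ'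
    have e3 : ‖(2 : ℂ)‖ = 2 := by norm_num
    rw [e3]
    have e4 : 2 * π * ‖h φ - h φ'‖ ≤ ((n : ℝ) / 10 + 3 / 20) * ‖φ - φ'‖ := by
      calc 2 * π * ‖h φ - h φ'‖ ≤ 2 * π * (((n : ℝ) / 10 + 3 / 20) / (2 * π) * ‖φ - φ'‖) :=
            mul_le_mul_of_nonneg_left e2 (by positivity)
        _ = ((n : ℝ) / 10 + 3 / 20) * ‖φ - φ'‖ := by
            field_simp
    have e5 : ((n : ℝ) / 10 + 3 / 20) * ‖φ - φ'‖ ≤ (1 / 2 * S) * ‖φ - φ'‖ := by
      refine mul_le_mul_of_nonneg_right ?_ (norm_nonneg _)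
      linarith
    linarith
  have hC : ContractingWith (1 / 2 : NNReal) (hmaps.restrict T D1 D1) := by
    refine ⟨by
      rw [div_lt_one (by norm_num)]
      norm_num, ?_⟩
    refine LipschitzWith.of_dist_le_mul fun x y => ?_
    have := hlip x x.2 y y.2
    rw [Subtype.dist_eq, Subtype.dist_eq]
    simpa using this
  obtain ⟨y, hy, hfix, -⟩ := hC.exists_fixedPoint' D1_closed.isComplete hmaps zero_D1
    (edist_ne_top _ _)
  refine ⟨y, hy, ?_⟩
  have h5 : T y = y := hfix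
  rw [hT] at h5
  have h6 : 2 * π * (Complex.I + h y) = y * ((n : ℂ) - Complex.I * a) := by
    rw [div_eq_iff hne] at h5
    exact h5
  unfold Eq
  have h7 : 2 * π * (Complex.I * a * y / (2 * π) + Complex.I - n * y / (2 * π) + h y) =
      Complex.I * a * y + 2 * π * Complex.I - n * y + 2 * π * h y := by
    field_simp
  have h8 : 2 * π * (Complex.I * a * y / (2 * π) + Complex.I - n * y / (2 * π) + h y) = 0 := by
    rw [h7]
    linear_combination h6
  rcases mul_eq_zero.1 h8 with h9 | h9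
  · exfalso
    rcases mul_eq_zero.1 h9 with h10 | h10
    · norm_num at h10
    · exact hpi0 h10
  · exact h9

end Pool.Agent.N424.EK
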