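import Pool.Agent.N424.EK.Crt0
import Pool.Agent.W85.HT.Step
import Pool.Agent.W398.HT.STPE
import Pool.Agent.W583.HTSeq

/-!
# EK/13: the integral at a child without circle (helper424)
-/

set_option autoImplicit false

namespace Pool.Agent.N424.EK

open Finset Filter Topology Metric
open Pool.Agent.W711.HT hiding XX
open Pool.Agent.TH563.UV
open Pool.Agent.N561
open Pool.Agent.N561.EK
open Pool.Agent.W85.HT (ker_diff ker_symm stp_eq)
open scoped Real

/-! ### The path -/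

theorem PP_DD {z : ℂ} (hz : z ∈ D0) (hz0 : 0 ≤ z.im) : PP z ⊆ DD := by
  intro w hw
  have h1 := hz.2.1
  rcases hw with ⟨h2, h3⟩ | ⟨h2, h3, h4⟩
  · refine ⟨by linarith, ?_⟩
    rw [h3, abs_of_nonneg hz0]
    linarith
  · refine ⟨by rw [h2]; norm_num, ?_⟩
    rw [abs_of_nonneg h3]
    linarith

theorem PP_compact (z : ℂ) : IsCompact (PP z) := by
  apply Metric.isCompact_of_isClosed_isBounded
  · have e : PP z = ({w : ℂ | |w.re| ≤ 1} ∩ {w : ℂ | w.im = z.im}) ∪
        ({w : ℂ | |w.re| = 1} ∩ ({w : ℂ | 0 ≤ w.im} ∩ {w : ℂ | w.im ≤ z.im})) := rfl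
    rw [e]
    refine IsClosed.union ?_ ?_
    · exact (isClosed_le Complex.continuous_re.abs continuous_const).inter
        (isClosed_eq Complex.continuous_im continuous_const)
    · exact (isClosed_eq Complex.continuous_re.abs continuous_const).inter
        ((isClosed_le continuous_const Complex.continuous_im).inter
          (isClosed_le Complex.continuous_im continuous_const))
  · refine (isBounded_closedBall (x := (0 : ℂ)) (r := 1 + |z.im|)).subset ?_
    intro w hw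
    rw [mem_closedBall, dist_zero_right]
    refine (Complex.norm_le_abs_re_add_abs_im w).trans ?_
    rcases hw with ⟨h2, h3⟩ | ⟨h2, h3, h4⟩
    · rw [h3]
      linarith
    · rw [h2, abs_of_nonneg h3]
      linarith [le_abs_self z.im]

theorem Pth_PP {z : ℂ} {τ₁ : ℝ} (hτ : 0 < τ₁) : Pth 1 1 z.im z.im τ₁ ⊆ PP z := by
  intro w hw
  rcases hw with ⟨h1, h2, h3⟩ | ⟨h1, h2, h3⟩ | ⟨h1, h2, h3⟩ | ⟨h1, h2⟩
  · exact Or.inr ⟨h1, by linarith, h3⟩
  · exact Or.inl ⟨h2, h3⟩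
  · exact Or.inl ⟨h1.le, le_antisymm h3 h2⟩
  · exact Or.inl ⟨h1, h2⟩

theorem one_PP {z : ℂ} (hz0 : 0 ≤ z.im) : (1 : ℂ) ∈ PP z := by
  right
  simp [hz0]

theorem one_CO : CO (1 : ℂ) := by
  unfold CO
  simp

theorem one_DD : (1 : ℂ) ∈ DD := by
  refine ⟨?_, ?_⟩ <;> norm_num

/-! ### The vertex -/

/-- the term of the vertex -/
noncomputable def gt (a : ℤ) (w : ℂ) : ℂ := Complex.I * a * w ^ 2 / (4 * π) + Complex.I * w

theorem qq_gt (a : ℤ) (G : ℂ → ℂ) (w : ℂ) : qq a G w = gt a w + G w := rfl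

theorem gt_re (a : ℤ) (w : ℂ) : (gt a w).re = -(a * w.re * w.im) / (2 * π) - w.im := by
  have e : gt a w = ((a / (4 * π) : ℝ) : ℂ) * (Complex.I * w ^ 2) + Complex.I * w := by
    unfold gt
    push_cast
    ring
  rw [e, Complex.add_re, Complex.re_ofReal_mul, Complex.I_mul_re, Complex.I_mul_re]
  have e2 : (w ^ 2).im = 2 * w.re * w.im := by
    rw [sq, Complex.mul_im]
    ring
  rw [e2]
  have := Real.pi_pos
  field_simp
  ring

theorem gt_tg (a : ℤ) {z : ℂ} (hz : 0 < z.im) (w : ℂ) :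
    (gt a w).re = (gt a z).re + tg z (Complex.I * a * z / (2 * π) + Complex.I) w := by
  have e : Complex.I * a * z / (2 * π) + Complex.I =
      ((a / (2 * π) : ℝ) : ℂ) * (Complex.I * z) + Complex.I := by
    push_cast
    ring
  unfold tg
  rw [gt_re, gt_re, e, Complex.add_im, Complex.add_re, Complex.re_ofReal_mul,
    Complex.im_ofReal_mul, Complex.I_mul_re, Complex.I_mul_im, Complex.I_re, Complex.I_im]
  have := Real.pi_pos
  field_simp
  ring

theorem tg_add (z G H w : ℂ) : tg z (G + H) w = tg z G w + tg z H w := by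
  unfold tg
  rw [Complex.add_re, Complex.add_im]
  ring

theorem tg_zero (z w : ℂ) : tg z 0 w = 0 := by
  unfold tg
  simp

section

variable {t : ℕ} {a : ℤ} {F : ℂ → ℂ} {z ψ : ℂ}

theorem tg_sum (hz0 : 0 < z.im)
    (hcr : Complex.I * a * z / (2 * π) + Complex.I + deriv F z + s1 z ψ = 0) (w : ℂ) :
    (gt a w).re + tg z (deriv F z) w + tg z (s1 z ψ) w = (gt a z).re := by
  have h1 := gt_tg a hz0 w
  have h2 := tg_zero z w
  rw [← hcr, tg_add, tg_add] at h2
  linarith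

/-- the value on the path -/
theorem path_le (hE : EDG) (hT : TP t F) (hz : z ∈ D0) (hz0 : 0 < z.im) (hψ : ψ ∈ DD)
    (hcr : Complex.I * a * z / (2 * π) + Complex.I + deriv F z + s1 z ψ = 0) {w : ℂ}
    (hw : w ∈ PP z) : (gt a w).re + (F w).re + (sg w ψ).re ≤
      (gt a z).re + (F z).re + (sg z ψ).re := by
  have h1 := tg_sum hz0 hcr w
  have h2 := hT.tp z hz w hw
  have h3 := (hE.e1 z hz ψ hψ w hw).1
  linarith

theorem path_lt (hE : EDG) (hT : TP t F) (hz : z ∈ D0) (hz0 : 0 < z.im) (hψ : ψ ∈ DD)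
    (hcr : Complex.I * a * z / (2 * π) + Complex.I + deriv F z + s1 z ψ = 0) {w : ℂ}
    (hw : w ∈ PP z) (hne : w ≠ z) : (gt a w).re + (F w).re + (sg w ψ).re <
      (gt a z).re + (F z).re + (sg z ψ).re := by
  have h1 := tg_sum hz0 hcr w
  have h2 := hT.tp z hz w hw
  have h3 := (hE.e1 z hz ψ hψ w hw).2.1 hne
  linarith

/-- the value at the end of the path -/
theorem path_end (hE : EDG) (hT : TP t F) (hz : z ∈ D0) (hz0 : 0 < z.im) (hψ : ψ ∈ DD)
    (hcr : Complex.I * a * z / (2 * π) + Complex.I + deriv F z + s1 z ψ = 0) :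
    (F 1).re + t / 50 + ((sg 1 ψ).re + 1 / 50) ≤ (gt a z).re + (F z).re + (sg z ψ).re := by
  have h1 := tg_sum hz0 hcr 1
  have h2 := hT.tpc z hz 1 one_CO
  have h3 := (hE.e1 z hz ψ hψ 1 (one_PP hz0.le)).2.2 one_CO
  have h4 : (gt a 1).re = 0 := by
    rw [gt_re]
    simp
  linarith

end

/-! ### Derivatives -/

theorem qq_der (a : ℤ) {G : ℂ → ℂ} {G' w : ℂ} (h : HasDerivAt G G' w) :
    HasDerivAt (qq a G) (Complex.I * a * w / (2 * π) + Complex.I + G') w := by
  have e0 : HasDerivAt (fun w : ℂ => Complex.I * a * w ^ 2 / (4 * π) + Complex.I * w)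
      (Complex.I * a * w / (2 * π) + Complex.I) w := by
    have h1 := (((hasDerivAt_id w).pow 2).const_mul (Complex.I * a)).div_const (4 * (π : ℂ))
    have h2 := (hasDerivAt_id w).const_mul Complex.I
    refine (h1.add h2).congr_deriv ?_
    simp
    ring
  exact e0.add h

section

variable (hP : POT) {t : ℕ} {F : ℂ → ℂ} (hF : AN t F)

include hP hF

theorem G_der {w p : ℂ} (hw : w ∈ DD) (hp : p ∈ DD) (c : ℂ) :
    HasDerivAt (fun w => F w + sg w p + c) (deriv F w + s1 w p) w := by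
  have e1 : HasDerivAt F (deriv F w) w :=
    (hF.Fan.differentiableAt (DD_open.mem_nhds hw)).hasDerivAt
  have e2 : HasDerivAt (fun w => sg w p) (s1 w p) w :=
    (hP.d1 w hw p hp).differentiableAt.hasDerivAt
  exact (e1.add e2).add_const c

theorem G_dd (hH : HES) (a : ℤ) {z p : ℂ} (hz : z ∈ DD) (hp : p ∈ DD) (c : ℂ) :
    (deriv (deriv (qq a fun w => F w + sg w p + c)) z).re < 0 := by
  have hpi := Real.pi_pos
  have h1 : deriv (qq a fun w => F w + sg w p + c) =ᶠ[𝓝 z] fun w =>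
      Complex.I * a * w / (2 * π) + Complex.I + (deriv F w + s1 w p) := by
    filter_upwards [DD_open.mem_nhds hz] with w hw
    exact (qq_der a (G_der hP hF hw hp c)).deriv
  rw [h1.deriv_eq]
  have e1 : HasDerivAt (deriv F) (deriv (deriv F) z) z :=
    ((hF.Fan.deriv DD_open).differentiableAt (DD_open.mem_nhds hz)).hasDerivAt
  have e2 := hP.d11 z hz p hp
  have e3 : HasDerivAt (fun w : ℂ => Complex.I * a * w / (2 * π) + Complex.I)
      (Complex.I * a / (2 * π)) z := by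
    have := (((hasDerivAt_id z).const_mul (Complex.I * a)).div_const
      (2 * (π : ℂ))).add_const Complex.I
    simpa using this
  have e4 : HasDerivAt (fun w => Complex.I * a * w / (2 * π) + Complex.I +
      (deriv F w + s1 w p)) (Complex.I * a / (2 * π) + (deriv (deriv F) z +
      -(1 / (2 * π)) * (Complex.cos (p / 2) / (Complex.cos (z / 2) * rr z p)))) z :=
    e3.add (e1.add e2)
  rw [e4.deriv, Complex.add_re, Complex.add_re]
  have f1 : (Complex.I * a / (2 * π)).re = 0 := by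
    have : Complex.I * a / (2 * π) = ((a / (2 * π) : ℝ) : ℂ) * Complex.I := by
      push_cast
      ring
    rw [this, Complex.re_ofReal_mul, Complex.I_re, mul_zero]
  have f2 := hF.neg z hz
  have f3 : (-(1 / (2 * π)) * (Complex.cos (p / 2) /
      (Complex.cos (z / 2) * rr z p))).re = -(1 / (2 * π)) *
      (Complex.cos (p / 2) / (Complex.cos (z / 2) * rr z p)).re := by
    have : (-(1 / (2 * π)) : ℂ) = ((-(1 / (2 * π)) : ℝ) : ℂ) := by push_cast; ring
    rw [this, Complex.re_ofReal_mul]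
  rw [f1, f3]
  have f4 := hH.hes z hz p hp 1 0
  have f5 : 0 < 1 / (2 * π) * (Complex.cos (p / 2) / (Complex.cos (z / 2) * rr z p)).re := by
    apply mul_pos (by positivity)
    linarith
  linarith

end

/-! ### Bounds of the integrand -/

theorem stpb_false (a : ℤ) (X : ℕ → ℂ → ℂ) : stpb false a X = stp a X := by
  funext N ψ'
  unfold stpb stp Eb
  simp

/-- uniform continuity in the second variable -/
theorem unif2 {s : ℂ → ℂ → ℂ} {K K' : Set ℂ} (hK : IsCompact K) (hK' : IsCompact K')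
    (hs : ContinuousOn (fun p : ℂ × ℂ => s p.1 p.2) (K ×ˢ K')) {p : ℕ → ℂ} {p₀ : ℂ}
    (hp : ∀ N, p N ∈ K') (hp0 : p₀ ∈ K') (hlim : Tendsto p atTop (𝓝 p₀)) {ε : ℝ} (hε : 0 < ε) :
    ∀ᶠ N : ℕ in atTop, ∀ w ∈ K, ‖s w (p N) - s w p₀‖ < ε := by
  have huc := (hK.prod hK').uniformContinuousOn_of_continuous hs
  rw [Metric.uniformContinuousOn_iff] at huc
  obtain ⟨δ, hδ, hδ2⟩ := huc ε hε
  rw [Metric.tendsto_atTop] at hlim
  obtain ⟨N0, hN0⟩ := hlim δ hδ
  filter_upwards [eventually_ge_atTop N0] with N hN w hw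
  have h1 := hδ2 (w, p N) ⟨hw, hp N⟩ (w, p₀) ⟨hw, hp0⟩ (by
    rw [Prod.dist_eq, dist_self]
    exact max_lt hδ (hN0 N hN))
  rwa [dist_eq_norm] at h1

theorem upp_const (h : ℝ) (e : ℂ) (f : ℂ → ℂ) : upp h (fun ψ => e * f ψ) = e * upp h f := by
  unfold upp
  simp only [intervalIntegral.integral_const_mul]
  ring

theorem norm_expc (c : ℝ) (N : ℕ) : ‖Complex.exp ((N * c : ℝ) : ℂ)‖ = Real.exp (N * c) := by
  rw [Complex.norm_exp, Complex.ofReal_re]

section

variable {t : ℕ} {a : ℤ} {X : ℕ → ℂ → ℂ} {F F' zs : ℂ → ℂ}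

/-- limits along sequences -/
theorem lim_seq (hO : S_OUT) (hP : POT) (hH : HES) (hE : EDG) (hK : KMW) (hR : KFR)
    (H : PE t X F) (C : CRD t a F F' zs) {V : Set ℂ} (hV : V ⊆ DD) (hVc : IsCompact V)
    {p : ℕ → ℂ} {p₀ : ℂ} (hp0 : p₀ ∈ V) (hp : ∀ N, p N ∈ V) (hlim : Tendsto p atTop (𝓝 p₀))
    (c : ℝ) : Tendsto (fun N : ℕ => Real.log ‖Complex.exp ((N * c : ℝ) : ℂ) * stp a X N (p N)‖ / N)
      atTop (𝓝 ((F' p₀).re + c)) := by
  have hπ := Real.pi_gt_three
  have hp0D := hV hp0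
  obtain ⟨hz, hzi⟩ := C.mem p₀ hp0D
  have hcr := C.crit p₀ hp0D
  have hval := C.val p₀ hp0D
  obtain ⟨z, hzd⟩ : ∃ z, z = zs p₀ := ⟨_, rfl⟩
  rw [← hzd] at hz hzi hcr hval
  have hPD : PP z ⊆ DD := PP_DD hz hzi.le
  have hzP : z ∈ PP z := by
    left
    have := (Complex.abs_re_le_norm z).trans hz.1
    exact ⟨by linarith, rfl⟩
  have hzD : z ∈ DD := hPD hzP
  -- the far bounds
  obtain ⟨ε, hε⟩ : ∃ ε : ℝ, ε = 1 / 600 := ⟨_, rfl⟩
  have hε0 : 0 < ε := by rw [hε]; norm_num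
  obtain ⟨τa, hτa, hfa⟩ := H.far ε hε0
  obtain ⟨τb, hτb, hfb⟩ := hR.f1 V hV hVc ε hε0
  have ha1 : 0 < |(a : ℝ)| + 1 := by positivity
  obtain ⟨τ₁, hτ₁⟩ : ∃ τ₁ : ℝ, τ₁ = min (min τa τb) (min z.im (1 / (200 * (|(a : ℝ)| + 1)))) :=
    ⟨_, rfl⟩
  have hτ0 : 0 < τ₁ := by
    rw [hτ₁]
    exact lt_min (lt_min hτa hτb) (lt_min hzi (by positivity))
  have hτ1 : τ₁ ≤ τa := by rw [hτ₁]; exact (min_le_left _ _).trans (min_le_left _ _)
  have hτ2 : τ₁ ≤ τb := by rw [hτ₁]; exact (min_le_left _ _).trans (min_le_right _ _)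
  have hτ3 : τ₁ ≤ z.im := by rw [hτ₁]; exact (min_le_right _ _).trans (min_le_left _ _)
  have hτ4 : |(a : ℝ)| * τ₁ ≤ 1 / 200 := by
    have h1 : τ₁ ≤ 1 / (200 * (|(a : ℝ)| + 1)) := by
      rw [hτ₁]; exact (min_le_right _ _).trans (min_le_right _ _)
    rw [le_div_iff₀ (by positivity)] at h1
    have h2 : 0 ≤ |(a : ℝ)| := abs_nonneg _
    nlinarith
  have hpth : Pth 1 1 z.im z.im τ₁ ⊆ DD := (Pth_PP hτ0).trans hPD
  -- the potential
  have hGd : DifferentiableOn ℂ (fun w => F w + sg w p₀ + (c : ℂ)) DD := fun w hw =>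
    (G_der hP H.ana hw hp0D c).differentiableAt.differentiableWithinAt
  have hqz : qq a (fun w => F w + sg w p₀ + (c : ℂ)) z = F' p₀ + c := by
    rw [hval, qq_gt, qq_gt]
    ring
  have hqw : ∀ w, (qq a (fun w => F w + sg w p₀ + (c : ℂ)) w).re =
      (gt a w).re + (F w).re + (sg w p₀).re + c := by
    intro w
    rw [qq_gt, Complex.add_re, Complex.add_re, Complex.add_re, Complex.ofReal_re]
    ring
  have hF're : (F' p₀).re = (gt a z).re + (F z).re + (sg z p₀).re := by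
    rw [hval, qq_gt, Complex.add_re, Complex.add_re]
  have hsgc : ContinuousAt (fun w => sg w 1) p₀ := (hP.d1 p₀ hp0D 1 one_DD).continuousAt
  have hsgl : ∀ᶠ N : ℕ in atTop, (sg (p N) 1).re ≤ (sg p₀ 1).re + ε := by
    have h1 : Tendsto (fun N => (sg (p N) 1).re) atTop (𝓝 (sg p₀ 1).re) :=
      (Complex.continuous_re.continuousAt.comp hsgc).tendsto.comp hlim
    exact (h1.eventually (gt_mem_nhds (show (sg p₀ 1).re < (sg p₀ 1).re + ε by linarith))).mono
      fun N h => h.le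
  have key := hO a DD (fun w => F w + sg w p₀ + (c : ℂ)) 1 1 z.im τ₁ z DD_open hGd le_rfl
    (by linarith) hτ0 hτ3 le_rfl (by
      have := (Complex.abs_re_le_norm z).trans hz.1
      linarith) hpth (by
      rw [(qq_der a (G_der hP H.ana hzD hp0D c)).deriv]
      linear_combination hcr) (G_dd hP H.ana hH a hzD hp0D c) (by
      intro w hw hne
      rw [hqw, hqw]
      have := path_lt hE H.tpl hz hzi hp0D hcr (Pth_PP hτ0 hw) hne
      linarith)
    (fun N w => Complex.exp ((N * c : ℝ) : ℂ) * (X N w * Pool.Agent.W711.HT.ker N w (p N)))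
    (fun N w => Complex.exp ((N * c : ℝ) : ℂ) * (X N w * Pool.Agent.W711.HT.ker N w (p N)))
    (c + ((F 1).re + t / 100 + ε) + ((sg p₀ 1).re + ε + 1 / 100 + ε)) ((F' p₀).re + c - 1)
    (fun N => ((H.an N).mul (ker_diff N (p N))).const_mul _)
    (fun N => ((H.an N).mul (ker_diff N (p N))).const_mul _) ?_ ?_ ?_ ?_ ?_
  · rw [hqz, Complex.add_re, Complex.ofReal_re] at key
    refine key.congr fun N => ?_
    congr 3
    rw [stp_eq, ← upp_const]
    congr 1
    funext φ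
    ring
  · -- asymptotics
    intro W hW hWc e he
    have hs : ContinuousOn (fun q : ℂ × ℂ => sg q.1 q.2) (W ×ˢ V) :=
      hP.san.continuousOn.mono (Set.prod_mono hW hV)
    filter_upwards [H.mw W hW hWc (e / 4) (by positivity),
      hK (W ∪ V) (Set.union_subset hW hV) (hWc.union hVc) (e / 4) (by positivity),
      unif2 (s := sg) hWc hVc hs hp hp0 hlim (show 0 < e / 2 by positivity)] with N h1 h2 h3 w hw
    obtain ⟨k1, k2⟩ := h1 w hw
    obtain ⟨l1, l2⟩ := h2 w (Or.inl hw) (p N) (Or.inr (hp N))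
    have m3 := (Complex.abs_re_le_norm _).trans (h3 w hw).le
    rw [Complex.sub_re] at m3
    have hN0 : (0 : ℝ) ≤ N := Nat.cast_nonneg N
    have m4 : |N * ((sg w (p N)).re - (sg w p₀).re)| ≤ N * (e / 2) := by
      rw [abs_mul, abs_of_nonneg hN0]
      exact mul_le_mul_of_nonneg_left m3 hN0
    refine ⟨mul_ne_zero (Complex.exp_ne_zero _) (mul_ne_zero k1 l1), ?_⟩
    rw [norm_mul, norm_mul, norm_expc, Real.log_mul (Real.exp_pos _).ne'
      (mul_ne_zero (norm_ne_zero_iff.2 k1) (norm_ne_zero_iff.2 l1)), Real.log_exp,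
      Real.log_mul (norm_ne_zero_iff.2 k1) (norm_ne_zero_iff.2 l1), Complex.add_re,
      Complex.add_re, Complex.ofReal_re]
    rw [abs_le] at k2 l2 m4 ⊢
    constructor
    · linarith [k2.1, l2.1, m4.1]
    · linarith [k2.2, l2.2, m4.2]
  · -- beyond the ends of the path
    filter_upwards [hfa, hfb, hsgl] with N h1 h2 h3 x y hx hx' hy
    have k1 := h1 x y hx hx' (hy.trans hτ1)
    have k2 := h2 (p N) (hp N) x y hx hx' (hy.trans hτ2)
    have hN0 : (0 : ℝ) ≤ N := Nat.cast_nonneg N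
    rw [norm_mul, norm_mul, norm_expc, ker_symm N _ (p N), mul_add, mul_add, Real.exp_add,
      Real.exp_add, mul_assoc]
    refine mul_le_mul_of_nonneg_left ?_ (Real.exp_pos _).le
    refine mul_le_mul k1 (k2.trans (Real.exp_le_exp.2 ?_)) (norm_nonneg _) (Real.exp_pos _).le
    apply mul_le_mul_of_nonneg_left _ hN0
    linarith
  · rw [hqz, Complex.add_re, Complex.ofReal_re]
    have h1 := path_end hE H.tpl hz hzi hp0D hcr
    rw [hF're]
    have h2 : (sg p₀ 1).re = (sg 1 p₀).re := by rw [hP.sym]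
    have h3 : (0 : ℝ) ≤ t := Nat.cast_nonneg t
    rw [h2]
    linarith
  · refine Eventually.of_forall fun N x y _ _ => ?_
    rw [sub_self, norm_zero]
    exact (Real.exp_pos _).le
  · rw [hqz, Complex.add_re, Complex.ofReal_re]
    linarith

/-- asymptotics -/
theorem stp_mw (hO : S_OUT) (hP : POT) (hH : HES) (hE : EDG) (hK : KMW) (hR : KFR)
    (H : PE t X F) (C : CRD t a F F' zs) {V : Set ℂ} (hV : V ⊆ DD) (hVc : IsCompact V) :
    MW (stp a X) F' V := by
  have hcont : ContinuousOn F' V := fun w hw => (C.der w (hV hw)).continuousAt.continuousWithinAt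
  obtain ⟨M, hM⟩ := hVc.exists_bound_of_continuousOn hcont
  obtain ⟨c, hc⟩ : ∃ c : ℝ, c = M + 1 := ⟨_, rfl⟩
  have hlow : ∀ w ∈ V, 1 ≤ (F' w).re + c := by
    intro w hw
    have h1 := (Complex.abs_re_le_norm (F' w)).trans (hM w hw)
    have h2 := neg_le_abs (F' w).re
    linarith
  have hunif := Pool.Agent.W583.HT.seq ℂ V hVc
    (fun N ψ' => Real.log ‖Complex.exp ((N * c : ℝ) : ℂ) * stp a X N ψ'‖ / N)
    (fun ψ' => (F' ψ').re + c)
    ((Complex.continuous_re.comp_continuousOn hcont).add continuousOn_const)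
    (fun p p₀ hp0 hp hlim => lim_seq hO hP hH hE hK hR H C hV hVc hp0 hp hlim c)
  intro e he
  filter_upwards [hunif (min e (1 / 2)) (lt_min he (by norm_num)), eventually_gt_atTop 0] with
    N h1 h2 ψ hψ
  have hN' : (0 : ℝ) < N := by exact_mod_cast h2
  have k1 := h1 ψ hψ
  have hne : stp a X N ψ ≠ 0 := by
    intro h0
    rw [h0, mul_zero, norm_zero, Real.log_zero, zero_div, zero_sub, abs_neg] at k1
    have k3 := (le_abs_self _).trans k1
    have k4 := min_le_right e (1 / 2)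
    have k5 := hlow ψ hψ
    linarith
  refine ⟨hne, ?_⟩
  have k2 : |Real.log ‖Complex.exp ((N * c : ℝ) : ℂ) * stp a X N ψ‖ / N - ((F' ψ).re + c)| ≤ e :=
    k1.trans (min_le_left _ _)
  have k3 : Real.log ‖Complex.exp ((N * c : ℝ) : ℂ) * stp a X N ψ‖ =
      N * c + Real.log ‖stp a X N ψ‖ := by
    rw [norm_mul, norm_expc, Real.log_mul (Real.exp_pos _).ne' (norm_ne_zero_iff.2 hne),
      Real.log_exp]
  rw [k3] at k2
  have k4 : Real.log ‖stp a X N ψ‖ - N * (F' ψ).re =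
      N * ((N * c + Real.log ‖stp a X N ψ‖) / N - ((F' ψ).re + c)) := by
    field_simp
    ring
  rw [k4, abs_mul, abs_of_pos hN', mul_comm e]
  exact mul_le_mul_of_nonneg_left k2 hN'.le

/-- bound beyond the ends of the paths -/
theorem stp_far (hB : S_OUTB) (hP : POT) (hE : EDG) (hR : KFR) (H : PE t X F)
    (C : CRD t a F F' zs) {ε' : ℝ} (hε' : 0 < ε') : ∃ τ : ℝ, 0 < τ ∧ ∀ᶠ N : ℕ in atTop,
      ∀ x y : ℝ, 1 ≤ |x| → |x| ≤ π → |y| ≤ τ →
      ‖stp a X N (x + y * Complex.I)‖ ≤ Real.exp (N * ((F' 1).re + 1 / 100 + ε')) := by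
  have hπ := Real.pi_gt_three
  obtain ⟨hz, hzi⟩ := C.mem 1 one_DD
  have hcr := C.crit 1 one_DD
  have hval := C.val 1 one_DD
  obtain ⟨z, hzd⟩ : ∃ z, z = zs 1 := ⟨_, rfl⟩
  rw [← hzd] at hz hzi hcr hval
  have hPD : PP z ⊆ DD := PP_DD hz hzi.le
  obtain ⟨ε, hε⟩ : ∃ ε : ℝ, ε = ε' / 3 := ⟨_, rfl⟩
  have hε0 : 0 < ε := by rw [hε]; positivity
  obtain ⟨τa, hτa, hfa⟩ := H.far ε hε0
  obtain ⟨τb, hτb, hfb⟩ := hR.f1 (PP z) hPD (PP_compact z) ε hε0
  obtain ⟨τc, hτc, hfc⟩ := hR.f2 ε hε0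
  have ha1 : 0 < |(a : ℝ)| + 1 := by positivity
  obtain ⟨τ₁, hτ₁⟩ : ∃ τ₁ : ℝ, τ₁ = min (min τa τc) (min z.im (1 / (200 * (|(a : ℝ)| + 1)))) :=
    ⟨_, rfl⟩
  have hτ0 : 0 < τ₁ := by
    rw [hτ₁]
    exact lt_min (lt_min hτa hτc) (lt_min hzi (by positivity))
  have hτ1 : τ₁ ≤ τa := by rw [hτ₁]; exact (min_le_left _ _).trans (min_le_left _ _)
  have hτ2 : τ₁ ≤ τc := by rw [hτ₁]; exact (min_le_left _ _).trans (min_le_right _ _)
  have hτ3 : τ₁ ≤ z.im := by rw [hτ₁]; exact (min_le_right _ _).trans (min_le_left _ _)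
  have hτ4 : |(a : ℝ)| * τ₁ ≤ 1 / 200 := by
    have h1 : τ₁ ≤ 1 / (200 * (|(a : ℝ)| + 1)) := by
      rw [hτ₁]; exact (min_le_right _ _).trans (min_le_right _ _)
    rw [le_div_iff₀ (by positivity)] at h1
    have h2 : 0 ≤ |(a : ℝ)| := abs_nonneg _
    nlinarith
  have hF're : (F' 1).re = (gt a z).re + (F z).re + (sg z 1).re := by
    rw [hval, qq_gt, Complex.add_re, Complex.add_re]
  have hend := path_end hE H.tpl hz hzi one_DD hcr
  rw [← hF're] at hend
  have ht0 : (0 : ℝ) ≤ t := Nat.cast_nonneg t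
  refine ⟨min τb τc, lt_min hτb hτc, ?_⟩
  filter_upwards [hB a 1 1 z.im z.im τ₁ one_pos le_rfl (by linarith) hτ0 hτ3 le_rfl ε hε0, hfa,
    hfb, hfc, H.mw (PP z) hPD (PP_compact z) ε hε0] with N g1 g2 g3 g4 g5 x y hx hx' hy
  have hN : (0 : ℝ) ≤ N := Nat.cast_nonneg N
  rw [stp_eq]
  have e1 : (F' 1).re + 1 / 100 + ε' = ((F' 1).re + 1 / 100 + 2 * ε) + ε := by
    rw [hε]
    ring
  rw [e1]
  refine g1 (fun w => X N w * Pool.Agent.W711.HT.ker N w (x + y * Complex.I))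
    (fun w => X N w * Pool.Agent.W711.HT.ker N w (x + y * Complex.I)) _
    ((H.an N).mul (ker_diff N _)) ((H.an N).mul (ker_diff N _)) ?_ ?_ ?_
  · intro x' y' hx1 hx1' hy1
    have k1 := g2 x' y' hx1 hx1' (hy1.trans hτ1)
    have k2 := g4 x y x' y' hx hx' (hy.trans (min_le_right _ _)) hx1 hx1' (hy1.trans hτ2)
    rw [norm_mul]
    refine (mul_le_mul k1 k2 (norm_nonneg _) (Real.exp_pos _).le).trans ?_
    rw [← Real.exp_add]
    apply Real.exp_le_exp.2
    rw [← mul_add]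
    apply mul_le_mul_of_nonneg_left _ hN
    linarith
  · intro w hw
    have hwP := Pth_PP hτ0 hw
    obtain ⟨a1, a2⟩ := g5 w hwP
    have a3 := g3 w hwP x y hx hx' (hy.trans (min_le_left _ _))
    have a4 : ‖X N w‖ ≤ Real.exp (N * ((F w).re + ε)) := by
      rw [← Real.log_le_iff_le_exp (norm_pos_iff.2 a1)]
      linarith [(abs_le.1 a2).2]
    have a5 := path_le hE H.tpl hz hzi one_DD hcr hwP
    rw [← hF're] at a5
    rw [norm_mul, norm_mul, Complex.norm_exp]
    have a6 : (N * (Complex.I * a * w ^ 2 / (4 * π) + Complex.I * w) : ℂ).re =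
        N * (gt a w).re := by
      rw [← Complex.ofReal_natCast, Complex.re_ofReal_mul]
      rfl
    rw [a6]
    refine (mul_le_mul_of_nonneg_left (mul_le_mul a4 a3 (norm_nonneg _) (Real.exp_pos _).le)
      (Real.exp_pos _).le).trans ?_
    rw [← Real.exp_add, ← Real.exp_add]
    apply Real.exp_le_exp.2
    have a8 : (gt a w).re + ((F w).re + ε + ((sg w 1).re + 1 / 100 + ε)) ≤
        (F' 1).re + 1 / 100 + 2 * ε := by linarith
    have a9 := mul_le_mul_of_nonneg_left a8 hN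
    linarith
  · intro x' y' _ _
    rw [sub_self, norm_zero]
    exact (Real.exp_pos _).le

end

/-- EK/13 -/
theorem stp' (hO : Pool.Agent.N561.S_OUT) (hB : Pool.Agent.N561.S_OUTB) : S_STP := by
  intro hP hH hE hK hR t a X F F' zs H C hA hT
  obtain ⟨st1, st2⟩ := Pool.Agent.W398.HT.t_STPE a X H.an
  rw [stpb_false]
  refine ⟨st1, st2, fun h => absurd h one_ne_zero, hA, hT,
    fun V hV hVc => stp_mw hO hP hH hE hK hR H C hV hVc, ?_⟩
  intro ε hε
  obtain ⟨τ, hτ, h⟩ := stp_far hB hP hE hR H C hε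
  refine ⟨τ, hτ, ?_⟩
  rw [Nat.cast_one]
  exact h

end Pool.Agent.N424.EK
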